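import Mathlib

/-!
# The sum of the absolute values of the coefficients of an integer polynomial
-/

set_option autoImplicit false

namespace Pool.Agent.OneClass

open MvPolynomial

variable {r : ℕ}

/-- The sum of the absolute values of the coefficients. -/
noncomputable def L1 (F : MvPolynomial (Fin r) ℤ) : ℝ :=
  ∑ α ∈ F.support, |((coeff α F : ℤ) : ℝ)|

lemma L1_eq (F : MvPolynomial (Fin r) ℤ) (t : Finset (Fin r →₀ ℕ)) (h : F.support ⊆ t) :
    L1 F = ∑ α ∈ t, |((coeff α F : ℤ) : ℝ)| := by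
  apply Finset.sum_subset h
  intro α _ hα
  rw [MvPolynomial.notMem_support_iff.mp hα]
  simp

lemma L1_nonneg (F : MvPolynomial (Fin r) ℤ) : 0 ≤ L1 F :=
  Finset.sum_nonneg fun _ _ => abs_nonneg _

lemma coeff_le_L1 (F : MvPolynomial (Fin r) ℤ) (α : Fin r →₀ ℕ) :
    |((coeff α F : ℤ) : ℝ)| ≤ L1 F := by
  by_cases h : α ∈ F.support
  · exact Finset.single_le_sum (f := fun α => |((coeff α F : ℤ) : ℝ)|)
      (fun _ _ => abs_nonneg _) h
  · rw [MvPolynomial.notMem_support_iff.mp h]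
    simpa using L1_nonneg F

lemma L1_add_le (F G : MvPolynomial (Fin r) ℤ) : L1 (F + G) ≤ L1 F + L1 G := by
  classical
  rw [L1_eq (F + G) (F.support ∪ G.support) MvPolynomial.support_add,
    L1_eq F (F.support ∪ G.support) Finset.subset_union_left,
    L1_eq G (F.support ∪ G.support) Finset.subset_union_right, ← Finset.sum_add_distrib]
  apply Finset.sum_le_sum
  intro α _
  rw [coeff_add]
  push_cast
  exact abs_add_le _ _

lemma L1_zero : L1 (0 : MvPolynomial (Fin r) ℤ) = 0 := by simp [L1]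

lemma L1_sum_le {ι : Type*} (t : Finset ι) (F : ι → MvPolynomial (Fin r) ℤ) :
    L1 (∑ i ∈ t, F i) ≤ ∑ i ∈ t, L1 (F i) := by
  classical
  induction t using Finset.induction_on with
  | empty => simp [L1_zero]
  | insert a t ha ih =>
    rw [Finset.sum_insert ha, Finset.sum_insert ha]
    exact (L1_add_le _ _).trans (by linarith)

lemma L1_monomial_le (α : Fin r →₀ ℕ) (a : ℤ) : L1 (monomial α a) ≤ |(a : ℝ)| := by
  classical
  rw [L1_eq _ {α} MvPolynomial.support_monomial_subset, Finset.sum_singleton, coeff_monomial,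
    if_pos rfl]

lemma L1_C_le (a : ℤ) : L1 (C a : MvPolynomial (Fin r) ℤ) ≤ |(a : ℝ)| := L1_monomial_le 0 a

lemma L1_X_le (k : Fin r) : L1 (X k : MvPolynomial (Fin r) ℤ) ≤ 1 := by
  have := L1_monomial_le (Finsupp.single k 1) 1
  simpa [X] using this

lemma L1_mul_le (F G : MvPolynomial (Fin r) ℤ) : L1 (F * G) ≤ L1 F * L1 G := by
  classical
  have h : F * G = ∑ α ∈ F.support, ∑ β ∈ G.support,
      monomial (α + β) (coeff α F * coeff β G) := by
    conv_lhs => rw [F.as_sum, G.as_sum]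
    rw [Finset.sum_mul_sum]
    simp only [MvPolynomial.monomial_mul]
  rw [h]
  refine (L1_sum_le _ _).trans ?_
  rw [L1, L1, Finset.sum_mul_sum]
  apply Finset.sum_le_sum
  intro α _
  refine (L1_sum_le _ _).trans ?_
  apply Finset.sum_le_sum
  intro β _
  refine (L1_monomial_le _ _).trans ?_
  push_cast
  rw [abs_mul]

lemma L1_neg (F : MvPolynomial (Fin r) ℤ) : L1 (-F) = L1 F := by
  rw [L1, L1, MvPolynomial.support_neg]
  apply Finset.sum_congr rfl
  intro α _
  rw [coeff_neg]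
  push_cast
  rw [abs_neg]

lemma L1_sub_le (F G : MvPolynomial (Fin r) ℤ) : L1 (F - G) ≤ L1 F + L1 G := by
  rw [sub_eq_add_neg]
  exact (L1_add_le _ _).trans (by rw [L1_neg])

lemma L1_C_mul_le (a : ℤ) (F : MvPolynomial (Fin r) ℤ) : L1 (C a * F) ≤ |(a : ℝ)| * L1 F :=
  (L1_mul_le _ _).trans (mul_le_mul_of_nonneg_right (L1_C_le a) (L1_nonneg F))

/-- The integral linear form with coefficients `n`. -/
noncomputable def lin (n : Fin r → ℤ) : MvPolynomial (Fin r) ℤ := ∑ k, C (n k) * X k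

lemma lin_hom (n : Fin r → ℤ) : (lin n).IsHomogeneous 1 :=
  IsHomogeneous.sum _ _ _ fun _ _ => isHomogeneous_C_mul_X _ _

lemma aeval_lin (n : Fin r → ℤ) (x : Fin r → ℝ) : aeval x (lin n) = ∑ k, (n k : ℝ) * x k := by
  simp [lin]

lemma L1_lin_le (n : Fin r → ℤ) (T : ℝ) (hT : 0 ≤ T) (h : ∀ k, |(n k : ℝ)| ≤ T) :
    L1 (lin n) ≤ (r + 1) * T := by
  refine (L1_sum_le _ _).trans ?_
  have h1 : ∀ k ∈ (Finset.univ : Finset (Fin r)), L1 (C (n k) * X k) ≤ T := by
    intro k _
    refine (L1_C_mul_le _ _).trans ?_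
    have := mul_le_mul (h k) (L1_X_le k) (L1_nonneg _) hT
    linarith
  refine (Finset.sum_le_sum h1).trans ?_
  rw [Finset.sum_const, Finset.card_univ, Fintype.card_fin, nsmul_eq_mul]
  nlinarith

end Pool.Agent.OneClass
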