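import Mathlib

/-!
# Equivalence of 2 x 2 matrices from proportional formal determinants

Witt extension theorem for the quadratic space `(M_2(ℚ), det)`, for orthogonal families, and its
consequence: if `M`, `M'` are singular real 2 x 2 matrices with `ℚ`-linearly independent rows and
columns and `det θ(M') = κ det θ(M)` for every `ℚ`-linear `θ : ℝ → ℝ`, with `κ ≠ 0`, then
`M' = P M Q` or `M' = P Mᵀ Q` with `P`, `Q` in `GL_2(ℚ)`.
-/

set_option autoImplicit false

namespace Pool.Agent.OneClass

open Matrix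

/-- The real matrix with the entries of a rational one. -/
def toR (P : Matrix (Fin 2) (Fin 2) ℚ) : Matrix (Fin 2) (Fin 2) ℝ := P.map (fun x : ℚ => (x : ℝ))

/-- Polar form of the determinant. -/
def pol {K : Type*} [CommRing K] (X Y : Matrix (Fin 2) (Fin 2) K) : K :=
  X 0 0 * Y 1 1 + X 1 1 * Y 0 0 - X 0 1 * Y 1 0 - X 1 0 * Y 0 1

lemma pol_comm {K : Type*} [CommRing K] (X Y : Matrix (Fin 2) (Fin 2) K) : pol X Y = pol Y X := by
  unfold pol; ring

lemma det_add_two {K : Type*} [CommRing K] (X Y : Matrix (Fin 2) (Fin 2) K) :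
    (X + Y).det = X.det + Y.det + pol X Y := by
  simp only [pol, Matrix.det_fin_two, Matrix.add_apply]; ring

/-- Isometries of `(M_2(ℚ), det)` of the two standard types. -/
def IsStd (σ : Matrix (Fin 2) (Fin 2) ℚ → Matrix (Fin 2) (Fin 2) ℚ) : Prop :=
  ∃ P Q : Matrix (Fin 2) (Fin 2) ℚ, P.det * Q.det = 1 ∧
    ((∀ X, σ X = P * X * Q) ∨ (∀ X, σ X = P * Xᵀ * Q))

lemma IsStd.comp {σ τ : Matrix (Fin 2) (Fin 2) ℚ → Matrix (Fin 2) (Fin 2) ℚ}
    (hσ : IsStd σ) (hτ : IsStd τ) : IsStd (σ ∘ τ) := by
  obtain ⟨P, Q, hPQ, h⟩ := hσ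
  obtain ⟨P', Q', hPQ', h'⟩ := hτ
  rcases h with h | h <;> rcases h' with h' | h'
  · refine ⟨P * P', Q' * Q, ?_, Or.inl fun X => ?_⟩
    · rw [Matrix.det_mul, Matrix.det_mul]
      calc _ = (P.det * Q.det) * (P'.det * Q'.det) := by ring
        _ = 1 := by rw [hPQ, hPQ', one_mul]
    · simp only [Function.comp, h, h', Matrix.mul_assoc]
  · refine ⟨P * P', Q' * Q, ?_, Or.inr fun X => ?_⟩
    · rw [Matrix.det_mul, Matrix.det_mul]
      calc _ = (P.det * Q.det) * (P'.det * Q'.det) := by ring
        _ = 1 := by rw [hPQ, hPQ', one_mul]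
    · simp only [Function.comp, h, h', Matrix.mul_assoc]
  · refine ⟨P * Q'ᵀ, P'ᵀ * Q, ?_, Or.inr fun X => ?_⟩
    · rw [Matrix.det_mul, Matrix.det_mul, Matrix.det_transpose, Matrix.det_transpose]
      calc _ = (P.det * Q.det) * (P'.det * Q'.det) := by ring
        _ = 1 := by rw [hPQ, hPQ', one_mul]
    · simp only [Function.comp, h, h', Matrix.mul_assoc, Matrix.transpose_mul]
  · refine ⟨P * Q'ᵀ, P'ᵀ * Q, ?_, Or.inl fun X => ?_⟩
    · rw [Matrix.det_mul, Matrix.det_mul, Matrix.det_transpose, Matrix.det_transpose]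
      calc _ = (P.det * Q.det) * (P'.det * Q'.det) := by ring
        _ = 1 := by rw [hPQ, hPQ', one_mul]
    · simp only [Function.comp, h, h', Matrix.mul_assoc, Matrix.transpose_mul,
        Matrix.transpose_transpose]

lemma isStd_id : IsStd id := by
  refine ⟨1, 1, by simp, Or.inl fun X => by simp⟩

lemma IsStd.det {σ : Matrix (Fin 2) (Fin 2) ℚ → Matrix (Fin 2) (Fin 2) ℚ}
    (hσ : IsStd σ) (X : Matrix (Fin 2) (Fin 2) ℚ) : (σ X).det = X.det := by
  obtain ⟨P, Q, hPQ, h⟩ := hσ
  rcases h with h | h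
  · rw [h, Matrix.det_mul, Matrix.det_mul]; linear_combination X.det * hPQ
  · rw [h, Matrix.det_mul, Matrix.det_mul, Matrix.det_transpose]; linear_combination X.det * hPQ

lemma IsStd.add {σ : Matrix (Fin 2) (Fin 2) ℚ → Matrix (Fin 2) (Fin 2) ℚ}
    (hσ : IsStd σ) (X Y : Matrix (Fin 2) (Fin 2) ℚ) : σ (X + Y) = σ X + σ Y := by
  obtain ⟨P, Q, _, h⟩ := hσ
  rcases h with h | h
  · rw [h, h, h, Matrix.mul_add, Matrix.add_mul]
  · rw [h, h, h, Matrix.transpose_add, Matrix.mul_add, Matrix.add_mul]

lemma IsStd.pol {σ : Matrix (Fin 2) (Fin 2) ℚ → Matrix (Fin 2) (Fin 2) ℚ}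
    (hσ : IsStd σ) (X Y : Matrix (Fin 2) (Fin 2) ℚ) : pol (σ X) (σ Y) = pol X Y := by
  have h1 := det_add_two (σ X) (σ Y)
  have h2 := det_add_two X Y
  rw [← hσ.add, hσ.det, hσ.det, hσ.det] at h1
  linarith

lemma IsStd.zero {σ : Matrix (Fin 2) (Fin 2) ℚ → Matrix (Fin 2) (Fin 2) ℚ}
    (hσ : IsStd σ) : σ 0 = 0 := by
  have := hσ.add 0 0
  simpa using this

/-- The reflection in a non-isotropic `v`. -/
def refl (v X : Matrix (Fin 2) (Fin 2) ℚ) : Matrix (Fin 2) (Fin 2) ℚ :=
  X - (OneClass.pol X v / v.det) • v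

lemma isStd_refl (v : Matrix (Fin 2) (Fin 2) ℚ) (hv : v.det ≠ 0) : IsStd (refl v) := by
  have hd : v.det = v 0 0 * v 1 1 - v 0 1 * v 1 0 := Matrix.det_fin_two v
  generalize hD : v.det = D at hd hv
  refine ⟨!![v 0 1 / D, -(v 0 0) / D; v 1 1 / D, -(v 1 0) / D],
    !![-(v 1 0), -(v 1 1); v 0 0, v 0 1], ?_, Or.inr fun X => ?_⟩
  · simp only [Matrix.det_fin_two_of]
    field_simp
    rw [hd]
    ring
  · ext i j
    fin_cases i <;> fin_cases j <;>
    · simp [refl, OneClass.pol, hD, Matrix.mul_apply, Fin.sum_univ_two, Matrix.vecMul,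
        dotProduct]
      field_simp
      rw [hd]
      ring

lemma refl_self (v : Matrix (Fin 2) (Fin 2) ℚ) (hv : v.det ≠ 0) : refl v v = -v := by
  have : OneClass.pol v v = 2 * v.det := by
    simp only [OneClass.pol, Matrix.det_fin_two]; ring
  rw [refl, this, mul_div_assoc, div_self hv]
  ext i j
  simp only [Matrix.sub_apply, Matrix.smul_apply, Matrix.neg_apply, smul_eq_mul]
  ring

lemma refl_of_pol (v X : Matrix (Fin 2) (Fin 2) ℚ) (h : OneClass.pol X v = 0) :
    refl v X = X := by
  rw [refl, h, zero_div, zero_smul, sub_zero]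

/-- Witt's theorem for orthogonal families. -/
lemma witt {ι : Type*} [DecidableEq ι] (x y : ι → Matrix (Fin 2) (Fin 2) ℚ)
    (hdet : ∀ i, (y i).det = (x i).det)
    (hx : ∀ i j, i ≠ j → OneClass.pol (x i) (x j) = 0)
    (hy : ∀ i j, i ≠ j → OneClass.pol (y i) (y j) = 0)
    (h0 : ∀ i, (x i).det = 0 → x i = 0 ∧ y i = 0) (s : Finset ι) :
    ∃ σ, IsStd σ ∧ ∀ i ∈ s, σ (x i) = y i := by
  induction s using Finset.induction_on with
  | empty => exact ⟨id, isStd_id, by simp⟩
  | insert a s ha ih =>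
    obtain ⟨σ, hσ, h⟩ := ih
    by_cases hd : (x a).det = 0
    · obtain ⟨h1, h2⟩ := h0 a hd
      refine ⟨σ, hσ, fun i hi => ?_⟩
      rcases Finset.mem_insert.mp hi with rfl | hi
      · rw [h1, h2, hσ.zero]
      · exact h i hi
    · have hz1 : ∀ i ∈ s, OneClass.pol (y i) (σ (x a)) = 0 := by
        intro i hi
        rw [← h i hi, hσ.pol]
        exact hx i a (fun h => ha (h ▸ hi))
      have hz2 : ∀ i ∈ s, OneClass.pol (y i) (y a) = 0 := fun i hi =>
        hy i a (fun h => ha (h ▸ hi))
      have hzd : (σ (x a)).det = (y a).det := by rw [hσ.det, hdet]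
      have hyd : (y a).det ≠ 0 := by rwa [hdet]
      set z := σ (x a) with hz
      by_cases hm : (z - y a).det = 0
      · have hp : (z + y a).det ≠ 0 := by
          intro hp
          apply hyd
          simp only [Matrix.det_fin_two, Matrix.sub_apply, Matrix.add_apply] at hm hp hzd ⊢
          linarith
        refine ⟨refl (y a) ∘ (refl (z + y a) ∘ σ),
          (isStd_refl _ hyd).comp ((isStd_refl _ hp).comp hσ), fun i hi => ?_⟩
        rcases Finset.mem_insert.mp hi with rfl | hi
        · simp only [Function.comp]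
          rw [← hz]
          have h1 : refl (z + y i) z = -(y i) := by
            have h2 : OneClass.pol z (z + y i) = (z + y i).det := by
              have e1 : OneClass.pol z (z + y i) = 2 * z.det + OneClass.pol z (y i) := by
                simp only [OneClass.pol, Matrix.det_fin_two, Matrix.add_apply]; ring
              rw [e1, det_add_two, hzd]; ring
            rw [refl, h2, div_self hp, one_smul]
            ext k l
            simp
          rw [h1]
          have h3 : refl (y i) (-(y i)) = -refl (y i) (y i) := by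
            have e1 : OneClass.pol (-(y i)) (y i) = -OneClass.pol (y i) (y i) := by
              simp only [OneClass.pol, Matrix.neg_apply]; ring
            rw [refl, refl, e1]
            ext k l
            simp only [Matrix.sub_apply, Matrix.smul_apply, Matrix.neg_apply, smul_eq_mul]
            ring
          rw [h3, refl_self _ hyd, neg_neg]
        · simp only [Function.comp]
          rw [h i hi]
          have h2 : OneClass.pol (y i) (z + y a) = 0 := by
            have e1 : OneClass.pol (y i) (z + y a) =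
                OneClass.pol (y i) z + OneClass.pol (y i) (y a) := by
              simp only [OneClass.pol, Matrix.add_apply]; ring
            rw [e1, hz1 i hi, hz2 i hi, add_zero]
          rw [refl_of_pol _ _ h2, refl_of_pol _ _ (hz2 i hi)]
      · refine ⟨refl (z - y a) ∘ σ, (isStd_refl _ hm).comp hσ, fun i hi => ?_⟩
        rcases Finset.mem_insert.mp hi with rfl | hi
        · simp only [Function.comp]
          rw [← hz]
          have h2 : OneClass.pol z (z - y i) = (z - y i).det := by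
            have e1 : OneClass.pol z (z - y i) = 2 * z.det - OneClass.pol z (y i) := by
              simp only [OneClass.pol, Matrix.det_fin_two, Matrix.sub_apply]; ring
            have e2 : (z - y i).det = z.det + (y i).det - OneClass.pol z (y i) := by
              simp only [OneClass.pol, Matrix.det_fin_two, Matrix.sub_apply]; ring
            rw [e1, e2, hzd]; ring
          rw [refl, h2, div_self hm, one_smul]
          ext k l
          simp
        · simp only [Function.comp]
          rw [h i hi]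
          apply refl_of_pol
          have e1 : OneClass.pol (y i) (z - y a) =
              OneClass.pol (y i) z - OneClass.pol (y i) (y a) := by
            simp only [OneClass.pol, Matrix.sub_apply]; ring
          rw [e1, hz1 i hi, hz2 i hi, sub_zero]

/-- Independence of the rows, in coordinates. -/
def RowsIndep (M : Matrix (Fin 2) (Fin 2) ℝ) : Prop :=
  ∀ u v : ℚ, (∀ j, (u : ℝ) * M 0 j + (v : ℝ) * M 1 j = 0) → u = 0 ∧ v = 0

/-- A rational isotropic matrix orthogonal to a singular `M` with independent rows and columns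
vanishes. -/
lemma isotropic_zero (M : Matrix (Fin 2) (Fin 2) ℝ) (hM : M.det = 0)
    (hr : RowsIndep M) (hc : RowsIndep Mᵀ) (X : Matrix (Fin 2) (Fin 2) ℚ)
    (hX : X.det = 0) (hp : pol (toR X) M = 0) : X = 0 := by
  -- write `X = u v^T`
  have hfac : ∃ u v : Fin 2 → ℚ, ∀ i j, X i j = u i * v j := by
    rw [Matrix.det_fin_two] at hX
    by_cases h00 : X 0 0 = 0
    · rw [h00, zero_mul, zero_sub, neg_eq_zero, mul_eq_zero] at hX
      rcases hX with h | h
      · refine ⟨![0, 1], ![X 1 0, X 1 1], fun i j => ?_⟩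
        fin_cases i <;> fin_cases j <;> simp [h00, h]
      · refine ⟨![X 0 1, X 1 1], ![0, 1], fun i j => ?_⟩
        fin_cases i <;> fin_cases j <;> simp [h00, h]
    · refine ⟨![X 0 0, X 1 0], ![1, X 0 1 / X 0 0], fun i j => ?_⟩
      fin_cases i <;> fin_cases j <;> simp
      · field_simp
      · field_simp
        linarith
  obtain ⟨u, v, huv⟩ := hfac
  rw [Matrix.det_fin_two] at hM
  simp only [pol, toR, Matrix.map_apply, huv] at hp
  push_cast at hp
  by_cases hu : u 0 = 0 ∧ u 1 = 0
  · ext i j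
    rw [huv]
    fin_cases i <;> simp [hu.1, hu.2]
  by_cases hv : v 0 = 0 ∧ v 1 = 0
  · ext i j
    rw [huv]
    fin_cases j <;> simp [hv.1, hv.2]
  exfalso
  -- p = (u 1, - u 0) M, s = M (v 1, - v 0)
  have key : ∀ i j, ((u 1 : ℝ) * M 0 j - (u 0 : ℝ) * M 1 j) *
      ((v 1 : ℝ) * M i 0 - (v 0 : ℝ) * M i 1) = 0 := by
    intro i j
    fin_cases i <;> fin_cases j <;> simp only [Fin.zero_eta, Fin.mk_one, Fin.isValue]
    · linear_combination M 0 0 * hp - (u 0 : ℝ) * (v 0 : ℝ) * hM
    · linear_combination M 0 1 * hp - (u 0 : ℝ) * (v 1 : ℝ) * hM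
    · linear_combination M 1 0 * hp - (u 1 : ℝ) * (v 0 : ℝ) * hM
    · linear_combination M 1 1 * hp - (u 1 : ℝ) * (v 1 : ℝ) * hM
  by_cases hall : ∀ j, (u 1 : ℝ) * M 0 j - (u 0 : ℝ) * M 1 j = 0
  · have := hr (u 1) (-(u 0)) (fun j => by push_cast; linarith [hall j])
    exact hu ⟨by linarith [this.2], this.1⟩
  · push Not at hall
    obtain ⟨j, hj⟩ := hall
    have := hc (v 1) (-(v 0)) (fun i => by
      have h1 := (mul_eq_zero.mp (key i j)).resolve_left hj
      simp only [Matrix.transpose_apply]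
      push_cast
      linarith)
    exact hv ⟨by linarith [this.2], this.1⟩

lemma toR_mul (X Y : Matrix (Fin 2) (Fin 2) ℚ) : toR (X * Y) = toR X * toR Y := by
  ext i j
  simp [toR, Matrix.mul_apply]

lemma toR_transpose (X : Matrix (Fin 2) (Fin 2) ℚ) : toR Xᵀ = (toR X)ᵀ := rfl

/-- The polar form as a bilinear form. -/
def polB : LinearMap.BilinForm ℚ (Matrix (Fin 2) (Fin 2) ℚ) :=
  LinearMap.mk₂ ℚ (fun X Y => pol X Y)
    (fun X X' Y => by simp only [pol, Matrix.add_apply]; ring)
    (fun c X Y => by simp only [pol, Matrix.smul_apply, smul_eq_mul]; ring)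
    (fun X Y Y' => by simp only [pol, Matrix.add_apply]; ring)
    (fun c X Y => by simp only [pol, Matrix.smul_apply, smul_eq_mul]; ring)

lemma polB_apply (X Y : Matrix (Fin 2) (Fin 2) ℚ) : polB X Y = pol X Y := rfl

/-- Decomposition of the pair `(M, M')` along a basis of the span of the entries, chosen so that
the coefficient matrices of `M` are orthogonal. -/
lemma exists_decomp (M M' : Matrix (Fin 2) (Fin 2) ℝ) (κ : ℚ)
    (h : ∀ θ : ℝ →ₗ[ℚ] ℝ, (M'.map θ).det = κ * (M.map θ).det) :
    ∃ (n : ℕ) (e : Fin n → ℝ) (x y : Fin n → Matrix (Fin 2) (Fin 2) ℚ),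
      M = ∑ k, e k • toR (x k) ∧ M' = ∑ k, e k • toR (y k) ∧
      (∀ i j, i ≠ j → pol (x i) (x j) = 0) ∧
      (∀ i j, pol (y i) (y j) = κ * pol (x i) (x j)) ∧
      (∀ i, (y i).det = κ * (x i).det) := by
  classical
  let W : Submodule ℚ ℝ := Submodule.span ℚ
    (Set.range (fun p : Fin 2 × Fin 2 => M p.1 p.2) ∪ Set.range (fun p : Fin 2 × Fin 2 => M' p.1 p.2))
  have hfin : FiniteDimensional ℚ W :=
    FiniteDimensional.span_of_finite ℚ ((Set.finite_range _).union (Set.finite_range _))
  have hmem : ∀ i j, M i j ∈ W := fun i j =>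
    Submodule.subset_span (Or.inl ⟨(i, j), rfl⟩)
  have hmem' : ∀ i j, M' i j ∈ W := fun i j =>
    Submodule.subset_span (Or.inr ⟨(i, j), rfl⟩)
  let w := Module.finBasis ℚ W
  set n := Module.finrank ℚ W with hn
  let F : Fin n → Matrix (Fin 2) (Fin 2) ℚ := fun k i j => w.repr ⟨M i j, hmem i j⟩ k
  let F' : Fin n → Matrix (Fin 2) (Fin 2) ℚ := fun k i j => w.repr ⟨M' i j, hmem' i j⟩ k
  have hF : ∀ i j, M i j = ∑ k, (F k i j : ℝ) * (w k : ℝ) := by
    intro i j
    have h1 := congrArg (Subtype.val) (w.sum_repr ⟨M i j, hmem i j⟩)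
    refine h1.symm.trans ?_
    simp only [AddSubmonoidClass.coe_finsetSum, SetLike.val_smul, Rat.smul_def]
    rfl
  have hF' : ∀ i j, M' i j = ∑ k, (F' k i j : ℝ) * (w k : ℝ) := by
    intro i j
    have h1 := congrArg (Subtype.val) (w.sum_repr ⟨M' i j, hmem' i j⟩)
    refine h1.symm.trans ?_
    simp only [AddSubmonoidClass.coe_finsetSum, SetLike.val_smul, Rat.smul_def]
    rfl
  let f : (Fin n → ℚ) →ₗ[ℚ] Matrix (Fin 2) (Fin 2) ℚ := Fintype.linearCombination ℚ F
  let f' : (Fin n → ℚ) →ₗ[ℚ] Matrix (Fin 2) (Fin 2) ℚ := Fintype.linearCombination ℚ F'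
  have hf : ∀ x i j, f x i j = ∑ k, x k * F k i j := by
    intro x i j
    simp only [f, Fintype.linearCombination_apply, Matrix.sum_apply, Matrix.smul_apply,
      smul_eq_mul]
  have hf' : ∀ x i j, f' x i j = ∑ k, x k * F' k i j := by
    intro x i j
    simp only [f', Fintype.linearCombination_apply, Matrix.sum_apply, Matrix.smul_apply,
      smul_eq_mul]
  have hdet : ∀ x, (f' x).det = κ * (f x).det := by
    intro x
    obtain ⟨θ, hθ⟩ := LinearMap.exists_extend
      (w.constr ℚ (fun k => ((x k : ℚ) : ℝ)) : W →ₗ[ℚ] ℝ)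
    have hθw : ∀ k, θ (w k : ℝ) = x k := by
      intro k
      have h1 := congrArg (fun g => g (w k)) hθ
      simp only [LinearMap.comp_apply, Submodule.subtype_apply, Module.Basis.constr_basis] at h1
      exact h1
    have h1 : ∀ i j, θ (M i j) = ((f x i j : ℚ) : ℝ) := by
      intro i j
      rw [hF, map_sum, hf]
      push_cast
      apply Finset.sum_congr rfl
      intro k _
      rw [← Rat.smul_def, map_smul, hθw, Rat.smul_def]
      ring
    have h2 : ∀ i j, θ (M' i j) = ((f' x i j : ℚ) : ℝ) := by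
      intro i j
      rw [hF', map_sum, hf']
      push_cast
      apply Finset.sum_congr rfl
      intro k _
      rw [← Rat.smul_def, map_smul, hθw, Rat.smul_def]
      ring
    have h3 := h θ
    simp only [Matrix.det_fin_two, Matrix.map_apply, h1, h2] at h3 ⊢
    exact_mod_cast h3
  have hpol : ∀ x y, pol (f' x) (f' y) = κ * pol (f x) (f y) := by
    intro x y
    have h1 := hdet (x + y)
    rw [map_add, map_add, det_add_two, det_add_two, hdet x, hdet y] at h1
    linarith
  let B : LinearMap.BilinForm ℚ (Fin n → ℚ) := LinearMap.compl₁₂ polB f f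
  have hB : ∀ x y, B x y = pol (f x) (f y) := fun x y => rfl
  have hBs : LinearMap.IsSymm B := ⟨fun x y => by
    simp only [hB, RingHom.id_apply]
    exact pol_comm _ _⟩
  obtain ⟨v, hv⟩ := LinearMap.BilinForm.exists_orthogonal_basis hBs
  refine ⟨_, fun k => ∑ l, ((v.repr (Pi.single l 1) k : ℚ) : ℝ) * (w l : ℝ),
    fun k => f (v k), fun k => f' (v k), ?_, ?_, ?_, ?_, ?_⟩
  · ext i j
    rw [hF]
    have h1 : ∀ l, F l = ∑ k, v.repr (Pi.single l 1) k • f (v k) := by
      intro l
      have h2 : f (Pi.single l 1) = F l := by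
        simp [f, Fintype.linearCombination_apply]
      rw [← h2]
      conv_lhs => rw [← v.sum_repr (Pi.single l 1)]
      rw [map_sum]
      simp only [map_smul]
    simp only [Matrix.sum_apply, Matrix.smul_apply, smul_eq_mul, Finset.sum_mul]
    rw [Finset.sum_comm]
    apply Finset.sum_congr rfl
    intro l _
    rw [h1 l]
    simp only [Matrix.sum_apply, Matrix.smul_apply, smul_eq_mul, toR, Matrix.map_apply]
    push_cast
    rw [Finset.sum_mul]
    apply Finset.sum_congr rfl
    intro k _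
    ring
  · ext i j
    rw [hF']
    have h1 : ∀ l, F' l = ∑ k, v.repr (Pi.single l 1) k • f' (v k) := by
      intro l
      have h2 : f' (Pi.single l 1) = F' l := by
        simp [f', Fintype.linearCombination_apply]
      rw [← h2]
      conv_lhs => rw [← v.sum_repr (Pi.single l 1)]
      rw [map_sum]
      simp only [map_smul]
    simp only [Matrix.sum_apply, Matrix.smul_apply, smul_eq_mul, Finset.sum_mul]
    rw [Finset.sum_comm]
    apply Finset.sum_congr rfl
    intro l _
    rw [h1 l]
    simp only [Matrix.sum_apply, Matrix.smul_apply, smul_eq_mul, toR, Matrix.map_apply]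
    push_cast
    rw [Finset.sum_mul]
    apply Finset.sum_congr rfl
    intro k _
    ring
  · intro i j hij
    exact hv hij
  · intro i j
    exact hpol _ _
  · intro i
    exact hdet _

/-- Proportional formal determinants give equivalent matrices. -/
theorem equiv_of_formal_det (M M' : Matrix (Fin 2) (Fin 2) ℝ) (hM : M.det = 0) (hM' : M'.det = 0)
    (hr : RowsIndep M) (hc : RowsIndep Mᵀ) (hr' : RowsIndep M') (hc' : RowsIndep M'ᵀ)
    (κ : ℚ) (hκ : κ ≠ 0)
    (h : ∀ θ : ℝ →ₗ[ℚ] ℝ, (M'.map θ).det = κ * (M.map θ).det) :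
    ∃ P Q : Matrix (Fin 2) (Fin 2) ℚ, P.det ≠ 0 ∧ Q.det ≠ 0 ∧
      (M' = toR P * M * toR Q ∨ M' = toR P * Mᵀ * toR Q) := by
  classical
  obtain ⟨n, e, x, y, hMx, hMy, hx, hxy, hd⟩ := exists_decomp M M' κ h
  have hpolself : ∀ X : Matrix (Fin 2) (Fin 2) ℚ, pol X X = 2 * X.det := by
    intro X; simp only [pol, Matrix.det_fin_two]; ring
  have hpolsum : ∀ (z : Fin n → Matrix (Fin 2) (Fin 2) ℚ) (X : Matrix (Fin 2) (Fin 2) ℚ),
      pol (toR X) (∑ k, e k • toR (z k)) = ∑ k, e k * ((pol X (z k) : ℚ) : ℝ) := by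
    intro z X
    simp only [pol, Matrix.sum_apply, Matrix.smul_apply, smul_eq_mul, toR, Matrix.map_apply]
    simp only [Finset.mul_sum, ← Finset.sum_add_distrib, ← Finset.sum_sub_distrib]
    apply Finset.sum_congr rfl
    intro k _
    push_cast
    ring
  have h0 : ∀ i, (x i).det = 0 → x i = 0 ∧ y i = 0 := by
    intro i hi
    constructor
    · apply isotropic_zero M hM hr hc (x i) hi
      rw [hMx, hpolsum]
      apply Finset.sum_eq_zero
      intro k _
      by_cases hik : i = k
      · rw [← hik, hpolself, hi]; simp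
      · rw [hx i k hik]; simp
    · have hyi : (y i).det = 0 := by rw [hd, hi, mul_zero]
      apply isotropic_zero M' hM' hr' hc' (y i) hyi
      rw [hMy, hpolsum]
      apply Finset.sum_eq_zero
      intro k _
      by_cases hik : i = k
      · rw [← hik, hpolself, hyi]; simp
      · rw [hxy, hx i k hik]; simp
  let D : Matrix (Fin 2) (Fin 2) ℚ := !![κ, 0; 0, 1]
  have hD : D.det = κ := by simp [D, Matrix.det_fin_two_of]
  have hpolD : ∀ X Y : Matrix (Fin 2) (Fin 2) ℚ, pol (D * X) (D * Y) = κ * pol X Y := by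
    intro X Y
    simp [D, pol, Matrix.mul_apply, Fin.sum_univ_two]
    ring
  obtain ⟨σ, ⟨P, Q, hPQ, hσ⟩, hσx⟩ := witt (fun i => D * x i) y
    (fun i => by rw [Matrix.det_mul, hD, hd])
    (fun i j hij => by rw [hpolD, hx i j hij, mul_zero])
    (fun i j hij => by rw [hxy, hx i j hij, mul_zero])
    (fun i hi => by
      rw [Matrix.det_mul, hD] at hi
      obtain ⟨h1, h2⟩ := h0 i ((mul_eq_zero.mp hi).resolve_left hκ)
      exact ⟨by rw [h1, Matrix.mul_zero], h2⟩) Finset.univ
  have hP : P.det ≠ 0 := left_ne_zero_of_mul_eq_one hPQ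
  have hQ : Q.det ≠ 0 := right_ne_zero_of_mul_eq_one hPQ
  rcases hσ with hσ | hσ
  · refine ⟨P * D, Q, ?_, hQ, Or.inl ?_⟩
    · rw [Matrix.det_mul, hD]; exact mul_ne_zero hP hκ
    · rw [hMy, hMx, Matrix.mul_sum, Matrix.sum_mul]
      apply Finset.sum_congr rfl
      intro k _
      rw [← hσx k (Finset.mem_univ k), hσ, toR_mul, toR_mul, toR_mul, toR_mul, Matrix.mul_smul,
        Matrix.smul_mul]
      simp only [Matrix.mul_assoc]
  · refine ⟨P, Dᵀ * Q, hP, ?_, Or.inr ?_⟩
    · rw [Matrix.det_mul, Matrix.det_transpose, hD]; exact mul_ne_zero hκ hQ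
    · rw [hMy, hMx, Matrix.transpose_sum, Matrix.mul_sum, Matrix.sum_mul]
      apply Finset.sum_congr rfl
      intro k _
      rw [← hσx k (Finset.mem_univ k), hσ, toR_mul, toR_mul, toR_mul, Matrix.transpose_mul, toR_mul,
        Matrix.transpose_smul, Matrix.mul_smul, Matrix.smul_mul, ← toR_transpose]
      simp only [Matrix.mul_assoc]

end Pool.Agent.OneClass
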