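import Mathlib

/-!
# The algebraic core: two quadratic polynomials with a common root

`S = MvPolynomial (Fin s) ℚ`, `b` a `ℚ`-linearly independent family of reals, `ℓ` a real common root
of `A Y² + B(b) Y + C(b)` and `A' Y² + B'(b) Y + C'(b)`, where `B, B'` are linear and `C, C'`
quadratic forms whose resultant vanishes identically. Then the two triples are proportional, or one
of them vanishes at all `(θ ℓ, θ b)`.
-/

set_option autoImplicit false

namespace Pool.Agent.OneClass

open MvPolynomial

variable {s : ℕ}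

lemma homog_factor {P u : MvPolynomial (Fin s) ℚ} {m n : ℕ} (hP : P.IsHomogeneous m)
    (hP0 : P ≠ 0) (h : (P * u).IsHomogeneous (m + n)) : u.IsHomogeneous n := by
  have key : ∀ i, homogeneousComponent (m + i) (P * u) = P * homogeneousComponent i u := by
    intro i
    have h1 : P * u = ∑ j ∈ Finset.range (u.totalDegree + 1), P * homogeneousComponent j u := by
      rw [← Finset.mul_sum, sum_homogeneousComponent]
    have h2 : ∀ j, homogeneousComponent (m + i) (P * homogeneousComponent j u) =
        if m + i = m + j then P * homogeneousComponent j u else 0 := fun j =>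
      homogeneousComponent_of_mem (hP.mul (homogeneousComponent_isHomogeneous j u))
    rw [h1, map_sum]
    simp only [h2]
    by_cases hi : i ∈ Finset.range (u.totalDegree + 1)
    · rw [Finset.sum_eq_single i]
      · simp
      · intro j _ hj
        rw [if_neg (fun h => hj (by omega))]
      · intro h; exact absurd hi h
    · rw [Finset.sum_eq_zero]
      · rw [homogeneousComponent_eq_zero i u (by
          simp only [Finset.mem_range, not_lt] at hi; omega), mul_zero]
      · intro j hj
        rw [if_neg]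
        intro h
        have : i = j := by omega
        exact hi (this ▸ hj)
  have h0 : ∀ i, i ≠ n → homogeneousComponent i u = 0 := by
    intro i hi
    have h1 := key i
    rw [homogeneousComponent_of_mem h, if_neg (by omega)] at h1
    exact (mul_eq_zero.mp h1.symm).resolve_left hP0
  have h1 : u = homogeneousComponent n u := by
    conv_lhs => rw [← sum_homogeneousComponent u]
    by_cases hi : n ∈ Finset.range (u.totalDegree + 1)
    · rw [Finset.sum_eq_single n]
      · intro j _ hj
        exact h0 j hj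
      · intro h; exact absurd hi h
    · rw [Finset.sum_eq_zero, homogeneousComponent_eq_zero n u (by
          simp only [Finset.mem_range, not_lt] at hi; omega)]
      intro j hj
      exact h0 j (fun h => hi (h ▸ hj))
  rw [h1]
  exact homogeneousComponent_isHomogeneous n u

/-- A linear form commutes with `ℚ`-linear maps. -/
lemma linear_aeval {t : MvPolynomial (Fin s) ℚ} (ht : t.IsHomogeneous 1) (b : Fin s → ℝ)
    (θ : ℝ →ₗ[ℚ] ℝ) : aeval (fun j => θ (b j)) t = θ (aeval b t) := by
  have h1 : t ∈ Submodule.span ℚ (Set.range (X : Fin s → MvPolynomial (Fin s) ℚ)) := by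
    rw [← homogeneousSubmodule_one_eq_span_X]
    exact ht
  induction h1 using Submodule.span_induction with
  | mem x hx =>
    obtain ⟨j, rfl⟩ := hx
    simp
  | zero => simp
  | add x y hx hy h1 h2 =>
    have hx' : x.IsHomogeneous 1 := by
      rw [← homogeneousSubmodule_one_eq_span_X] at hx; exact hx
    have hy' : y.IsHomogeneous 1 := by
      rw [← homogeneousSubmodule_one_eq_span_X] at hy; exact hy
    rw [map_add, map_add, h1 hx', h2 hy', map_add]
  | smul a x hx h1 =>
    have hx' : x.IsHomogeneous 1 := by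
      rw [← homogeneousSubmodule_one_eq_span_X] at hx; exact hx
    rw [map_smul, map_smul, h1 hx', map_smul]

/-- A linear form vanishing at an independent point is zero. -/
lemma linear_zero {t : MvPolynomial (Fin s) ℚ} (ht : t.IsHomogeneous 1) (b : Fin s → ℝ)
    (hb : ∀ x : Fin s → ℚ, ∃ θ : ℝ →ₗ[ℚ] ℝ, ∀ j, θ (b j) = x j)
    (h : aeval b t = 0) : t = 0 := by
  apply MvPolynomial.funext
  intro x
  obtain ⟨θ, hθ⟩ := hb x
  have h1 := linear_aeval ht b θ
  rw [h, map_zero] at h1
  have h2 : aeval (fun j => θ (b j)) t = ((eval x t : ℚ) : ℝ) := by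
    have h3 : (fun j => θ (b j)) = (algebraMap ℚ ℝ) ∘ x := by
      funext j; rw [hθ]; rfl
    rw [h3, MvPolynomial.aeval_algebraMap_apply]
    simp [MvPolynomial.aeval_eq_eval]
  rw [h2] at h1
  rw [map_zero]
  exact_mod_cast h1

/-- The formal polynomial vanishes at all `θ`. -/
def Bad (A : ℚ) (B C : MvPolynomial (Fin s) ℚ) (b : Fin s → ℝ) (ℓ : ℝ) : Prop :=
  ∀ θ : ℝ →ₗ[ℚ] ℝ, (A : ℝ) * θ ℓ ^ 2 + aeval (fun j => θ (b j)) B * θ ℓ +
    aeval (fun j => θ (b j)) C = 0

lemma bad_of_root {A : ℚ} {B C t : MvPolynomial (Fin s) ℚ} {b : Fin s → ℝ} {ℓ : ℝ}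
    (ht : t.IsHomogeneous 1) (h : MvPolynomial.C A * t ^ 2 + B * t + C = 0)
    (hℓ : ℓ = aeval b t) : Bad A B C b ℓ := by
  intro θ
  have h1 := linear_aeval ht b θ
  rw [← hℓ] at h1
  have h2 := congrArg (aeval (fun j => θ (b j))) h
  rw [map_add, map_add, map_mul, map_mul, map_pow, map_zero, h1, MvPolynomial.aeval_C] at h2
  exact h2

lemma bad_of_zero {b : Fin s → ℝ} {ℓ : ℝ} {A : ℚ} {B C : MvPolynomial (Fin s) ℚ}
    (hA : A = 0) (hB : B = 0) (hC : C = 0) : Bad A B C b ℓ := by
  intro θ
  rw [hA, hB, hC]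
  simp

/-- If `A y² - B y + C = 0` has a solution in the fraction field, of the form `q / p`, and `A ≠ 0`
then `p` divides `q`. -/
lemma dvd_of_root {A : ℚ} (hA : A ≠ 0) {B C p q : MvPolynomial (Fin s) ℚ} (hp0 : p ≠ 0)
    (hid : MvPolynomial.C A * q ^ 2 - B * p * q + C * p ^ 2 = 0) : ∃ y, q = p * y := by
  have hCA : (MvPolynomial.C A : MvPolynomial (Fin s) ℚ) ≠ 0 := by
    rwa [Ne, MvPolynomial.C_eq_zero]
  let K := FractionRing (MvPolynomial (Fin s) ℚ)
  let φ := algebraMap (MvPolynomial (Fin s) ℚ) K
  have hφ : Function.Injective φ := IsFractionRing.injective _ _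
  have hφp : φ p ≠ 0 := by
    rw [Ne, map_eq_zero_iff φ hφ]; exact hp0
  have hφA : φ (MvPolynomial.C A) ≠ 0 := by
    rw [Ne, map_eq_zero_iff φ hφ]; exact hCA
  have hint : IsIntegral (MvPolynomial (Fin s) ℚ) (φ q / φ p) := by
    let P : Polynomial (MvPolynomial (Fin s) ℚ) :=
      Polynomial.X ^ 2 + (Polynomial.C (-(MvPolynomial.C A⁻¹ * B)) * Polynomial.X +
        Polynomial.C (MvPolynomial.C A⁻¹ * C))
    refine ⟨P, ?_, ?_⟩
    · apply Polynomial.monic_X_pow_add
      refine lt_of_le_of_lt (Polynomial.degree_linear_le) (by norm_num)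
    · have h5 := congrArg φ hid
      simp only [map_add, map_sub, map_mul, map_pow, map_zero] at h5
      have hinv : φ (MvPolynomial.C A⁻¹) * φ (MvPolynomial.C A) = 1 := by
        rw [← map_mul, ← MvPolynomial.C_mul, inv_mul_cancel₀ hA, MvPolynomial.C_1, map_one]
      simp only [P, Polynomial.eval₂_add, Polynomial.eval₂_pow, Polynomial.eval₂_X,
        Polynomial.eval₂_mul, Polynomial.eval₂_C]
      change (φ q / φ p) ^ 2 + (φ (-(MvPolynomial.C A⁻¹ * B)) * (φ q / φ p) +
        φ (MvPolynomial.C A⁻¹ * C)) = 0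
      rw [map_neg, map_mul, map_mul]
      obtain ⟨z, hz⟩ : ∃ z, z = φ q / φ p := ⟨_, rfl⟩
      have hz' : φ q = z * φ p := by rw [hz, div_mul_cancel₀ _ hφp]
      rw [← hz]
      rw [hz'] at h5
      have h6 : φ p ^ 2 * (φ (MvPolynomial.C A) * z ^ 2 - φ B * z + φ C) = 0 := by
        linear_combination h5
      have h7 := (mul_eq_zero.mp h6).resolve_left (pow_ne_zero 2 hφp)
      linear_combination φ (MvPolynomial.C A⁻¹) * h7 - z ^ 2 * hinv
  obtain ⟨y, hy⟩ := IsIntegrallyClosed.algebraMap_eq_of_integral hint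
  refine ⟨y, hφ ?_⟩
  rw [map_mul]
  change φ q = φ p * (algebraMap _ K y)
  rw [hy, mul_div_cancel₀ _ hφp]

/-- The algebraic core: `ℓ` is an exact root of the second polynomial, and the resultants of the
two formal polynomials vanish. Then the first formal polynomial is a nonzero multiple of the second
one, or it vanishes, or the second one is bad. -/
theorem core {A A' : ℚ} {B C B' C' : MvPolynomial (Fin s) ℚ} {b : Fin s → ℝ} {ℓ : ℝ}
    (hb : ∀ x : Fin s → ℚ, ∃ θ : ℝ →ₗ[ℚ] ℝ, ∀ j, θ (b j) = x j)
    (hB : B.IsHomogeneous 1) (hC : C.IsHomogeneous 2) (hB' : B'.IsHomogeneous 1)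
    (hC' : C'.IsHomogeneous 2)
    (h' : (A' : ℝ) * ℓ ^ 2 + aeval b B' * ℓ + aeval b C' = 0)
    (h1 : (MvPolynomial.C A * C' - MvPolynomial.C A' * C) ^ 2 =
      (MvPolynomial.C A * B' - MvPolynomial.C A' * B) * (B * C' - B' * C))
    (h2 : A = 0 → A' = 0 → B * C' = B' * C)
    (h3 : A = 0 → B = 0 → C = 0) (h3' : A' = 0 → B' = 0 → C' = 0) :
    (∃ κ : ℚ, κ ≠ 0 ∧ A = κ * A' ∧ B = MvPolynomial.C κ * B' ∧ C = MvPolynomial.C κ * C') ∨
      (A = 0 ∧ B = 0 ∧ C = 0) ∨ Bad A' B' C' b ℓ := by
  by_cases hA' : A' = 0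
  · by_cases hB0' : B' = 0
    · exact Or.inr (Or.inr (bad_of_zero hA' hB0' (h3' hA' hB0')))
    have hBb : aeval b B' ≠ 0 := fun h => hB0' (linear_zero hB' b hb h)
    have hroot : ∀ y : MvPolynomial (Fin s) ℚ, C' = B' * y → Bad A' B' C' b ℓ := by
      intro y hy
      have hy1 : y.IsHomogeneous 1 := by
        apply homog_factor hB' hB0'
        rw [← hy]
        exact hC'
      refine bad_of_root (t := -y) hy1.neg ?_ ?_
      · rw [hy, hA']; simp
      · rw [hy, map_mul, hA', Rat.cast_zero, zero_mul, zero_add] at h'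
        have h5 : aeval b B' * (ℓ + aeval b y) = 0 := by linear_combination h'
        have h6 := (mul_eq_zero.mp h5).resolve_left hBb
        rw [map_neg]
        linarith
    by_cases hA : A = 0
    · by_cases hB0 : B = 0
      · exact Or.inr (Or.inl ⟨hA, hB0, h3 hA hB0⟩)
      have hprime : Prime B' := by
        apply Irreducible.prime
        apply irreducible_of_totalDegree_eq_one (hB'.totalDegree hB0')
        intro x hx
        obtain ⟨i, hi⟩ := MvPolynomial.ne_zero_iff.mp hB0'
        rw [isUnit_iff_ne_zero]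
        rintro rfl
        exact hi (zero_dvd_iff.mp (hx i))
      have h22 := h2 hA hA'
      have hdvd : B' ∣ B * C' := ⟨C, h22⟩
      rcases hprime.dvd_or_dvd hdvd with ⟨k, hk⟩ | ⟨u, hu⟩
      · have hk0 : k.IsHomogeneous 0 := by
          apply homog_factor hB' hB0'
          rw [← hk]
          exact hB
        obtain ⟨κ, hκ⟩ : ∃ κ : ℚ, k = MvPolynomial.C κ := by
          have h4 : k.totalDegree = 0 := by
            have := hk0.totalDegree_le; omega
          exact ⟨_, MvPolynomial.totalDegree_eq_zero_iff_eq_C.mp h4⟩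
        refine Or.inl ⟨κ, ?_, ?_, ?_, ?_⟩
        · rintro rfl
          rw [hκ, MvPolynomial.C_0, mul_zero] at hk
          exact hB0 hk
        · rw [hA, hA', mul_zero]
        · rw [hk, hκ, mul_comm]
        · have h5 : B' * C = B' * (MvPolynomial.C κ * C') := by
            rw [← h22, hk, hκ]; ring
          exact mul_left_cancel₀ hB0' h5
      · exact Or.inr (Or.inr (hroot u hu))
    · have hCA : (MvPolynomial.C A : MvPolynomial (Fin s) ℚ) ≠ 0 := by
        rwa [Ne, MvPolynomial.C_eq_zero]
      have hid : MvPolynomial.C A * C' ^ 2 - B * B' * C' + C * B' ^ 2 = 0 := by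
        have h5 : MvPolynomial.C A * (MvPolynomial.C A * C' ^ 2 - B * B' * C' + C * B' ^ 2) = 0 := by
          rw [hA', MvPolynomial.C_0] at h1
          linear_combination h1
        exact (mul_eq_zero.mp h5).resolve_left hCA
      obtain ⟨y, hy⟩ := dvd_of_root hA hB0' hid
      exact Or.inr (Or.inr (hroot y hy))
  · have hCA' : (MvPolynomial.C A' : MvPolynomial (Fin s) ℚ) ≠ 0 := by
      rwa [Ne, MvPolynomial.C_eq_zero]
    set p := MvPolynomial.C A' * B - MvPolynomial.C A * B' with hp
    set q := MvPolynomial.C A' * C - MvPolynomial.C A * C' with hq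
    have hp1 : p.IsHomogeneous 1 := (hB.C_mul A').sub (hB'.C_mul A)
    have hq2 : q.IsHomogeneous 2 := (hC.C_mul A').sub (hC'.C_mul A)
    have h1' : q ^ 2 = p * (B' * C - B * C') := by
      rw [hp, hq]
      linear_combination h1
    by_cases hp0 : p = 0
    · have hq0 : q = 0 := by
        rw [hp0, zero_mul] at h1'
        exact pow_eq_zero_iff (two_ne_zero) |>.mp h1'
      have e1 : B = MvPolynomial.C (A / A') * B' := by
        apply mul_left_cancel₀ hCA'
        rw [← mul_assoc, ← MvPolynomial.C_mul, mul_div_cancel₀ _ hA']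
        rw [hp] at hp0
        exact sub_eq_zero.mp hp0
      have e2 : C = MvPolynomial.C (A / A') * C' := by
        apply mul_left_cancel₀ hCA'
        rw [← mul_assoc, ← MvPolynomial.C_mul, mul_div_cancel₀ _ hA']
        rw [hq] at hq0
        exact sub_eq_zero.mp hq0
      by_cases hA : A = 0
      · refine Or.inr (Or.inl ⟨hA, ?_, ?_⟩)
        · rw [e1, hA]; simp
        · rw [e2, hA]; simp
      · exact Or.inl ⟨A / A', div_ne_zero hA hA', by field_simp, e1, e2⟩
    · have hid : MvPolynomial.C A' * q ^ 2 - B' * p * q + C' * p ^ 2 = 0 := by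
        have e : MvPolynomial.C A' * (B' * C - B * C') = B' * q - C' * p := by
          rw [hp, hq]; ring
        calc MvPolynomial.C A' * q ^ 2 - B' * p * q + C' * p ^ 2
            = MvPolynomial.C A' * (p * (B' * C - B * C')) - B' * p * q + C' * p ^ 2 := by
              rw [← h1']
          _ = p * (MvPolynomial.C A' * (B' * C - B * C')) - B' * p * q + C' * p ^ 2 := by ring
          _ = p * (B' * q - C' * p) - B' * p * q + C' * p ^ 2 := by rw [e]
          _ = 0 := by ring
      obtain ⟨y, hy⟩ := dvd_of_root hA' hp0 hid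
      have hy1 : y.IsHomogeneous 1 := by
        apply homog_factor hp1 hp0
        rw [← hy]
        exact hq2
      have hroot : MvPolynomial.C A' * (-y) ^ 2 + B' * (-y) + C' = 0 := by
        rw [hy] at hid
        have h5 : p ^ 2 * (MvPolynomial.C A' * (-y) ^ 2 + B' * (-y) + C') = 0 := by
          linear_combination hid
        exact (mul_eq_zero.mp h5).resolve_left (pow_ne_zero 2 hp0)
      -- the second root
      have hinv : (MvPolynomial.C A' : MvPolynomial (Fin s) ℚ) * MvPolynomial.C A'⁻¹ = 1 := by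
        rw [← MvPolynomial.C_mul, mul_inv_cancel₀ hA', MvPolynomial.C_1]
      set y' : MvPolynomial (Fin s) ℚ := y - MvPolynomial.C A'⁻¹ * B' with hy'
      have hy1' : y'.IsHomogeneous 1 := hy1.sub (hB'.C_mul _)
      have hroot' : MvPolynomial.C A' * y' ^ 2 + B' * y' + C' = 0 := by
        rw [hy']
        linear_combination hroot - (2 * y * B' - MvPolynomial.C A'⁻¹ * B' ^ 2) * hinv
      have hA'r : (A' : ℝ) ≠ 0 := by exact_mod_cast hA'
      have hval := congrArg (aeval b) hroot
      simp only [map_add, map_mul, map_pow, map_neg, map_zero, MvPolynomial.aeval_C,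
        eq_ratCast] at hval
      have hval' : aeval b y' = aeval b y - (A' : ℝ)⁻¹ * aeval b B' := by
        rw [hy']
        simp only [map_sub, map_mul, MvPolynomial.aeval_C, eq_ratCast, Rat.cast_inv]
      have h5 : (ℓ + aeval b y) * (ℓ - aeval b y') = 0 := by
        rw [hval']
        have h6 : (A' : ℝ) * ((ℓ + aeval b y) * (ℓ - (aeval b y - (A' : ℝ)⁻¹ * aeval b B'))) = 0 := by
          have h7 : (A' : ℝ) * (A' : ℝ)⁻¹ = 1 := mul_inv_cancel₀ hA'r
          linear_combination h' - hval + (ℓ + aeval b y) * aeval b B' * h7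
        exact (mul_eq_zero.mp h6).resolve_left hA'r
      rcases mul_eq_zero.mp h5 with h6 | h6
      · refine Or.inr (Or.inr (bad_of_root (t := -y) hy1.neg hroot ?_))
        rw [map_neg]; linarith
      · refine Or.inr (Or.inr (bad_of_root (t := y') hy1' hroot' ?_))
        linarith

/-- A matrix with `ℚ`-independent rows and columns has a nonzero formal determinant. -/
lemma exists_formal_ne (M : Matrix (Fin 2) (Fin 2) ℝ)
    (hr : ∀ u v : ℚ, (∀ j, (u : ℝ) * M 0 j + (v : ℝ) * M 1 j = 0) → u = 0 ∧ v = 0)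
    (hc : ∀ u v : ℚ, (∀ i, (u : ℝ) * M i 0 + (v : ℝ) * M i 1 = 0) → u = 0 ∧ v = 0) :
    ∃ θ : ℝ →ₗ[ℚ] ℝ, (M.map θ).det ≠ 0 := by
  by_contra hcon
  push Not at hcon
  simp only [Matrix.det_fin_two, Matrix.map_apply] at hcon
  have hid := hcon LinearMap.id
  simp only [LinearMap.id_coe, id_eq] at hid
  by_cases ha : M 0 0 = 0
  · rw [ha, zero_mul, zero_sub, neg_eq_zero, mul_eq_zero] at hid
    rcases hid with h | h
    · have := hr 1 0 (fun j => by fin_cases j <;> simp [ha, h])
      exact one_ne_zero this.1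
    · have := hc 1 0 (fun j => by fin_cases j <;> simp [ha, h])
      exact one_ne_zero this.1
  · -- a linear map with kernel exactly `ℚ a`
    obtain ⟨θ, hθ⟩ : ∃ θ : ℝ →ₗ[ℚ] ℝ, LinearMap.ker θ = Submodule.span ℚ {M 0 0} := by
      obtain ⟨W, hW⟩ := Submodule.exists_isCompl (Submodule.span ℚ {M 0 0})
      refine ⟨W.subtype ∘ₗ (W.projectionOnto _ hW.symm), ?_⟩
      rw [LinearMap.ker_comp_of_ker_eq_bot _ (Submodule.ker_subtype _)]
      exact Submodule.ker_projectionOnto _
    have h0 : θ (M 0 0) = 0 := by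
      rw [← LinearMap.mem_ker, hθ]
      exact Submodule.mem_span_singleton_self _
    have h1 := hcon θ
    rw [h0, zero_mul, zero_sub, neg_eq_zero, mul_eq_zero] at h1
    rcases h1 with h | h
    · rw [← LinearMap.mem_ker, hθ, Submodule.mem_span_singleton] at h
      obtain ⟨q, hq⟩ := h
      rw [Rat.smul_def] at hq
      have h2 : M 1 1 = q * M 1 0 := by
        apply mul_left_cancel₀ ha
        linear_combination hid - M 1 0 * hq
      have := hc q (-1) (fun i => by
        fin_cases i
        · simp [hq]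
        · simp [h2])
      exact absurd this.2 (by norm_num)
    · rw [← LinearMap.mem_ker, hθ, Submodule.mem_span_singleton] at h
      obtain ⟨q, hq⟩ := h
      rw [Rat.smul_def] at hq
      have h2 : M 1 1 = q * M 0 1 := by
        apply mul_left_cancel₀ ha
        linear_combination hid - M 0 1 * hq
      have := hr q (-1) (fun i => by
        fin_cases i
        · simp [hq]
        · simp [h2])
      exact absurd this.2 (by norm_num)

end Pool.Agent.OneClass
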