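import Mathlib
import Pool.Agent.OneClass.Witt
import Pool.Agent.OneClass.Core
import Pool.Agent.OneClass.Norm

/-!
# The determinant of a matrix of linear forms as a quadratic polynomial in one variable
-/

set_option autoImplicit false

namespace Pool.Agent.OneClass

open MvPolynomial

variable {r : ℕ}

/-- Leading coefficient. -/
def pA (c : Fin 2 → Fin 2 → ℤ) : ℤ := c 0 0 * c 1 1 - c 0 1 * c 1 0

/-- Linear coefficient. -/
noncomputable def pB (c : Fin 2 → Fin 2 → ℤ) (m : Fin 2 → Fin 2 → Fin r → ℤ) :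
    MvPolynomial (Fin r) ℤ :=
  (C (c 0 0) * lin (m 1 1) + C (c 1 1) * lin (m 0 0)) -
    (C (c 0 1) * lin (m 1 0) + C (c 1 0) * lin (m 0 1))

/-- Constant coefficient. -/
noncomputable def pC (m : Fin 2 → Fin 2 → Fin r → ℤ) : MvPolynomial (Fin r) ℤ :=
  lin (m 0 0) * lin (m 1 1) - lin (m 0 1) * lin (m 1 0)

lemma pB_hom (c : Fin 2 → Fin 2 → ℤ) (m : Fin 2 → Fin 2 → Fin r → ℤ) :
    (pB c m).IsHomogeneous 1 :=
  (((lin_hom _).C_mul _).add ((lin_hom _).C_mul _)).sub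
    (((lin_hom _).C_mul _).add ((lin_hom _).C_mul _))

lemma pC_hom (m : Fin 2 → Fin 2 → Fin r → ℤ) : (pC m).IsHomogeneous 2 :=
  ((lin_hom _).mul (lin_hom _)).sub ((lin_hom _).mul (lin_hom _))

/-- The resultant (up to a factor). -/
noncomputable def pR (c c' : Fin 2 → Fin 2 → ℤ) (m m' : Fin 2 → Fin 2 → Fin r → ℤ) :
    MvPolynomial (Fin r) ℤ :=
  (C (pA c) * pC m' - C (pA c') * pC m) ^ 2 -
    (C (pA c) * pB c' m' - C (pA c') * pB c m) * (pB c m * pC m' - pB c' m' * pC m)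

/-- The resultant of the linear polynomials. -/
noncomputable def pS (c c' : Fin 2 → Fin 2 → ℤ) (m m' : Fin 2 → Fin 2 → Fin r → ℤ) :
    MvPolynomial (Fin r) ℤ := pB c m * pC m' - pB c' m' * pC m

lemma pS_hom (c c' : Fin 2 → Fin 2 → ℤ) (m m' : Fin 2 → Fin 2 → Fin r → ℤ) :
    (pS c c' m m').IsHomogeneous 3 :=
  ((pB_hom _ _).mul (pC_hom _)).sub ((pB_hom _ _).mul (pC_hom _))

lemma pR_hom (c c' : Fin 2 → Fin 2 → ℤ) (m m' : Fin 2 → Fin 2 → Fin r → ℤ) :
    (pR c c' m m').IsHomogeneous 4 :=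
  ((((pC_hom _).C_mul _).sub ((pC_hom _).C_mul _)).pow 2).sub
    ((((pB_hom _ _).C_mul _).sub ((pB_hom _ _).C_mul _)).mul (pS_hom c c' m m'))

section bounds

variable (c c' : Fin 2 → Fin 2 → ℤ) (m m' : Fin 2 → Fin 2 → Fin r → ℤ) (T : ℝ) (hT : 1 ≤ T)
  (hc : ∀ i j, |(c i j : ℝ)| ≤ T) (hm : ∀ i j k, |(m i j k : ℝ)| ≤ T)
  (hc' : ∀ i j, |(c' i j : ℝ)| ≤ T) (hm' : ∀ i j k, |(m' i j k : ℝ)| ≤ T)

include hT hc

lemma pA_le : |(pA c : ℝ)| ≤ 2 * ((r + 1) * T) ^ 2 := by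
  have hr : (0:ℝ) ≤ r := Nat.cast_nonneg r
  have h1 : |(c 0 0 : ℝ) * c 1 1| ≤ T * T := by
    rw [abs_mul]; exact mul_le_mul (hc _ _) (hc _ _) (abs_nonneg _) (by linarith)
  have h2 : |(c 0 1 : ℝ) * c 1 0| ≤ T * T := by
    rw [abs_mul]; exact mul_le_mul (hc _ _) (hc _ _) (abs_nonneg _) (by linarith)
  have h3 : |(pA c : ℝ)| ≤ T * T + T * T := by
    rw [pA]
    push_cast
    exact (abs_sub _ _).trans (add_le_add h1 h2)
  refine h3.trans ?_
  have h4 : T * T ≤ ((r + 1) * T) ^ 2 := by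
    have : T ≤ (r + 1) * T := by nlinarith
    nlinarith
  linarith

include hm

lemma L1_pB_le : L1 (pB c m) ≤ 4 * ((r + 1) * T) ^ 2 := by
  have hr : (0:ℝ) ≤ r := Nat.cast_nonneg r
  have hTU : T ≤ (r + 1) * T := by nlinarith
  have h1 : ∀ i j i' j', L1 (C (c i j) * lin (m i' j')) ≤ ((r + 1) * T) ^ 2 := by
    intro i j i' j'
    refine (L1_C_mul_le _ _).trans ?_
    have := mul_le_mul ((hc i j).trans hTU) (L1_lin_le _ T (by linarith) (hm i' j'))
      (L1_nonneg _) (by nlinarith)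
    rw [sq]
    exact this
  rw [pB]
  refine (L1_sub_le _ _).trans ?_
  have h2 := L1_add_le (C (c 0 0) * lin (m 1 1)) (C (c 1 1) * lin (m 0 0))
  have h3 := L1_add_le (C (c 0 1) * lin (m 1 0)) (C (c 1 0) * lin (m 0 1))
  have := h1 0 0 1 1
  have := h1 1 1 0 0
  have := h1 0 1 1 0
  have := h1 1 0 0 1
  linarith

omit hc in
lemma L1_pC_le : L1 (pC m) ≤ 2 * ((r + 1) * T) ^ 2 := by
  have hr : (0:ℝ) ≤ r := Nat.cast_nonneg r
  have h1 : ∀ i j i' j', L1 (lin (m i j) * lin (m i' j')) ≤ ((r + 1) * T) ^ 2 := by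
    intro i j i' j'
    refine (L1_mul_le _ _).trans ?_
    have := mul_le_mul (L1_lin_le _ T (by linarith) (hm i j))
      (L1_lin_le _ T (by linarith) (hm i' j')) (L1_nonneg _) (by nlinarith)
    rw [sq]
    exact this
  rw [pC]
  refine (L1_sub_le _ _).trans ?_
  have := h1 0 0 1 1
  have := h1 0 1 1 0
  linarith

include hc' hm'

lemma L1_pS_le : L1 (pS c c' m m') ≤ 16 * ((r + 1) * T) ^ 4 := by
  have hr : (0:ℝ) ≤ r := Nat.cast_nonneg r
  set U : ℝ := (r + 1) * T with hU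
  have hU0 : 0 ≤ U := by rw [hU]; nlinarith
  rw [pS]
  refine (L1_sub_le _ _).trans ?_
  have h1 := (L1_mul_le (pB c m) (pC m')).trans (mul_le_mul (L1_pB_le c m T hT hc hm)
    (L1_pC_le m' T hT hm') (L1_nonneg _) (by positivity))
  have h2 := (L1_mul_le (pB c' m') (pC m)).trans (mul_le_mul (L1_pB_le c' m' T hT hc' hm')
    (L1_pC_le m T hT hm) (L1_nonneg _) (by positivity))
  rw [← hU] at h1 h2
  nlinarith

lemma L1_pR_le : L1 (pR c c' m m') ≤ 320 * ((r + 1) * T) ^ 8 := by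
  have hr : (0:ℝ) ≤ r := Nat.cast_nonneg r
  have hA := pA_le (r := r) c T hT hc
  have hA' := pA_le (r := r) c' T hT hc'
  have hB := L1_pB_le c m T hT hc hm
  have hB' := L1_pB_le c' m' T hT hc' hm'
  have hC := L1_pC_le m T hT hm
  have hC' := L1_pC_le m' T hT hm'
  have hS := L1_pS_le c c' m m' T hT hc hm hc' hm'
  set U : ℝ := (r + 1) * T with hU
  have hU0 : 0 ≤ U := by rw [hU]; nlinarith
  have e1 : L1 (C (pA c) * pC m') ≤ 4 * U ^ 4 := by
    have := (L1_C_mul_le (pA c) (pC m')).trans (mul_le_mul hA hC' (L1_nonneg _) (by positivity))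
    nlinarith
  have e2 : L1 (C (pA c') * pC m) ≤ 4 * U ^ 4 := by
    have := (L1_C_mul_le (pA c') (pC m)).trans (mul_le_mul hA' hC (L1_nonneg _) (by positivity))
    nlinarith
  have e3 : L1 (C (pA c) * pB c' m') ≤ 8 * U ^ 4 := by
    have := (L1_C_mul_le (pA c) (pB c' m')).trans
      (mul_le_mul hA hB' (L1_nonneg _) (by positivity))
    nlinarith
  have e4 : L1 (C (pA c') * pB c m) ≤ 8 * U ^ 4 := by
    have := (L1_C_mul_le (pA c') (pB c m)).trans
      (mul_le_mul hA' hB (L1_nonneg _) (by positivity))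
    nlinarith
  have e5 : L1 (C (pA c) * pC m' - C (pA c') * pC m) ≤ 8 * U ^ 4 :=
    (L1_sub_le _ _).trans (by linarith)
  have e6 : L1 (C (pA c) * pB c' m' - C (pA c') * pB c m) ≤ 16 * U ^ 4 :=
    (L1_sub_le _ _).trans (by linarith)
  have e7 : L1 ((C (pA c) * pC m' - C (pA c') * pC m) ^ 2) ≤ 64 * U ^ 8 := by
    rw [sq]
    refine (L1_mul_le _ _).trans ((mul_le_mul e5 e5 (L1_nonneg _) (by positivity)).trans ?_)
    apply le_of_eq; ring
  have e8 : L1 ((C (pA c) * pB c' m' - C (pA c') * pB c m) * pS c c' m m') ≤ 256 * U ^ 8 := by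
    refine (L1_mul_le _ _).trans ((mul_le_mul e6 hS (L1_nonneg _) (by positivity)).trans ?_)
    apply le_of_eq; ring
  have e9 := L1_sub_le ((C (pA c) * pC m' - C (pA c') * pC m) ^ 2)
    ((C (pA c) * pB c' m' - C (pA c') * pB c m) * pS c c' m m')
  change L1 ((C (pA c) * pC m' - C (pA c') * pC m) ^ 2 -
    (C (pA c) * pB c' m' - C (pA c') * pB c m) * pS c c' m m') ≤ _
  linarith

end bounds

lemma aeval_Cint (x : Fin r → ℝ) (a : ℤ) :
    aeval x (C a : MvPolynomial (Fin r) ℤ) = (a : ℝ) := by simp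

/-- The formal determinant. -/
lemma det_formal (c : Fin 2 → Fin 2 → ℤ) (m : Fin 2 → Fin 2 → Fin r → ℤ) (lam : Fin r → ℝ)
    (ℓ : ℝ) (M : Matrix (Fin 2) (Fin 2) ℝ)
    (hM : ∀ i j, M i j = (c i j : ℝ) * ℓ + ∑ k, (m i j k : ℝ) * lam k) (θ : ℝ →ₗ[ℚ] ℝ) :
    (M.map θ).det = (pA c : ℝ) * θ ℓ ^ 2 + aeval (fun k => θ (lam k)) (pB c m) * θ ℓ +
      aeval (fun k => θ (lam k)) (pC m) := by
  have h1 : ∀ i j, θ (M i j) = (c i j : ℝ) * θ ℓ + ∑ k, (m i j k : ℝ) * θ (lam k) := by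
    intro i j
    have h2 : ∀ (n : ℤ) (x : ℝ), θ ((n : ℝ) * x) = (n : ℝ) * θ x := by
      intro n x
      have : ((n : ℝ) * x) = (n : ℤ) • x := by simp
      rw [this, map_zsmul]; simp
    rw [hM, map_add, map_sum, h2]
    simp only [h2]
  rw [Matrix.det_fin_two]
  simp only [Matrix.map_apply, h1, pB, pC, map_sub, map_add, map_mul, aeval_lin, aeval_Cint,
    pA]
  push_cast
  ring

lemma abs_aeval_le (F : MvPolynomial (Fin r) ℤ) (x : Fin r → ℝ) (hx : ∀ k, |x k| ≤ 1) :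
    |aeval x F| ≤ L1 F := by
  rw [aeval_def, eval₂_eq', L1]
  refine (Finset.abs_sum_le_sum_abs _ _).trans (Finset.sum_le_sum fun α _ => ?_)
  rw [abs_mul]
  have h1 : |∏ k, x k ^ α k| ≤ 1 := by
    rw [Finset.abs_prod]
    apply Finset.prod_le_one
    · intro i _; exact abs_nonneg _
    · intro i _
      rw [abs_pow]
      exact pow_le_one₀ (abs_nonneg _) (hx i)
  have h2 : |(algebraMap ℤ ℝ) (coeff α F)| = |((coeff α F : ℤ) : ℝ)| := rfl
  rw [h2]
  exact mul_le_of_le_one_right (abs_nonneg _) h1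

/-- Numerical bound for the resultant in terms of the value of the first polynomial. -/
lemma res_bound (U A A' β β' γ γ' ℓ f η : ℝ) (hU1 : 1 ≤ U) (hη0 : 0 ≤ η)
    (bA : |A| ≤ 2 * U ^ 2) (bA' : |A'| ≤ 2 * U ^ 2) (bβ : |β| ≤ 4 * U ^ 2)
    (bβ' : |β'| ≤ 4 * U ^ 2) (bγ' : |γ'| ≤ 2 * U ^ 2)
    (hAint : A' ≠ 0 → 1 ≤ |A'|) (hd : |f| ≤ η) (hf1 : |f| ≤ 1)
    (e1 : f = A * ℓ ^ 2 + β * ℓ + γ) (e1' : 0 = A' * ℓ ^ 2 + β' * ℓ + γ') :
    |(A * γ' - A' * γ) ^ 2 - (A * β' - A' * β) * (β * γ' - β' * γ)| ≤ 500 * U ^ 8 * η := by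
  have hU2nn : 0 ≤ U ^ 2 := by positivity
  have hU4nn : 0 ≤ U ^ 4 := by positivity
  have hU8nn : 0 ≤ U ^ 8 := by positivity
  have hU44 : U ^ 4 * U ^ 4 = U ^ 8 := by ring
  have hU22' : U ^ 2 * U ^ 2 = U ^ 4 := by ring
  have hU48 : U ^ 4 ≤ U ^ 8 := pow_le_pow_right₀ hU1 (by norm_num)
  have hU68 : U ^ 4 * U ^ 2 ≤ U ^ 8 := by
    rw [← pow_add]; exact pow_le_pow_right₀ hU1 (by norm_num)
  -- `A' ℓ` is bounded
  have hAℓ : |A' * ℓ| ≤ 12 * U ^ 4 := by
    by_cases h0 : A' = 0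
    · rw [h0, zero_mul, abs_zero]; positivity
    · have h1 := hAint h0
      have h2 : |ℓ| ≤ 6 * U ^ 2 := by
        by_contra hcon
        push Not at hcon
        have hU22 : 1 ≤ U ^ 2 := one_le_pow₀ hU1
        have h3 : |A'| * |ℓ| ^ 2 ≤ 4 * U ^ 2 * |ℓ| + 2 * U ^ 2 := by
          have h4 : A' * ℓ ^ 2 = -(β' * ℓ) - γ' := by linarith
          have h5 : |A'| * |ℓ| ^ 2 = |A' * ℓ ^ 2| := by rw [abs_mul, abs_pow]
          rw [h5, h4]
          refine (abs_sub _ _).trans ?_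
          rw [abs_neg, abs_mul]
          exact add_le_add (mul_le_mul_of_nonneg_right bβ' (abs_nonneg _)) bγ'
        have h6 : |ℓ| ^ 2 ≤ |A'| * |ℓ| ^ 2 := by
          have h7 : 0 ≤ |ℓ| ^ 2 := by positivity
          exact le_mul_of_one_le_left h7 h1
        have h8 : |ℓ| ^ 2 ≤ 4 * U ^ 2 * |ℓ| + 2 * U ^ 2 := h6.trans h3
        have h9 : 1 ≤ |ℓ| := by linarith
        have h10 : 6 * U ^ 2 * |ℓ| < |ℓ| ^ 2 := by
          have h7 : |ℓ| ^ 2 = |ℓ| * |ℓ| := sq _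
          rw [h7]; exact mul_lt_mul_of_pos_right hcon (by linarith)
        have h11 : 2 * U ^ 2 * 1 ≤ 2 * U ^ 2 * |ℓ| :=
          mul_le_mul_of_nonneg_left h9 (by positivity)
        linarith
      rw [abs_mul]
      have h12 := mul_le_mul bA' h2 (abs_nonneg _) (by positivity)
      have h13 : 2 * U ^ 2 * (6 * U ^ 2) = 12 * U ^ 4 := by ring
      linarith
  have hp : |A * β' - A' * β| ≤ 16 * U ^ 4 := by
    refine (abs_sub _ _).trans ?_
    rw [abs_mul, abs_mul]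
    have h1 := mul_le_mul bA bβ' (abs_nonneg _) (by positivity)
    have h2 := mul_le_mul bA' bβ (abs_nonneg _) (by positivity)
    have h3 : 2 * U ^ 2 * (4 * U ^ 2) = 8 * U ^ 4 := by ring
    linarith
  have h1 : (A * γ' - A' * γ) ^ 2 - (A * β' - A' * β) * (β * γ' - β' * γ) =
      f * (2 * (A' * ℓ) * (A * β' - A' * β) + A' ^ 2 * f + (A * β' - A' * β) * β') := by
    have f1 : (A * β' - A' * β) * ℓ + (A * γ' - A' * γ) + A' * f = 0 := by
      linear_combination A' * e1 - A * e1'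
    have f2 : (A * β' - A' * β) * ℓ ^ 2 - (β * γ' - β' * γ) - β' * f = 0 := by
      linear_combination (-β') * e1 + β * e1'
    linear_combination (A * γ' - A' * γ - (A * β' - A' * β) * ℓ - A' * f) * f1 +
      (A * β' - A' * β) * f2
  rw [h1, abs_mul]
  have h2 : |2 * (A' * ℓ) * (A * β' - A' * β) + A' ^ 2 * f + (A * β' - A' * β) * β'| ≤
      500 * U ^ 8 := by
    have t1 : |2 * (A' * ℓ) * (A * β' - A' * β)| ≤ 384 * U ^ 8 := by
      rw [abs_mul, abs_mul, abs_two, mul_assoc]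
      have h4 := mul_le_mul hAℓ hp (abs_nonneg _) (by positivity)
      have h5 : 12 * U ^ 4 * (16 * U ^ 4) = 192 * U ^ 8 := by ring
      linarith
    have t2 : |A' ^ 2 * f| ≤ 4 * U ^ 8 := by
      rw [abs_mul, abs_pow]
      have h3 : |A'| ^ 2 ≤ 4 * U ^ 4 := by
        have h4 := mul_le_mul bA' bA' (abs_nonneg _) (by positivity)
        have h5 : 2 * U ^ 2 * (2 * U ^ 2) = 4 * U ^ 4 := by ring
        rw [sq]; linarith
      have h4 := mul_le_mul h3 hf1 (abs_nonneg _) (by positivity)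
      linarith
    have t3 : |(A * β' - A' * β) * β'| ≤ 64 * U ^ 8 := by
      rw [abs_mul]
      have h4 := mul_le_mul hp bβ' (abs_nonneg _) (by positivity)
      have h5 : 16 * U ^ 4 * (4 * U ^ 2) = 64 * (U ^ 4 * U ^ 2) := by ring
      linarith
    refine (abs_add_le _ _).trans ?_
    have := abs_add_le (2 * (A' * ℓ) * (A * β' - A' * β)) (A' ^ 2 * f)
    linarith
  have h3 := mul_le_mul hd h2 (abs_nonneg _) hη0
  linarith

/-- Main step: genericity of the point `lam` for the polynomials of degree at most four with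
bounded coefficients. A singular matrix `M'` with independent rows and columns repels all the
matrices `M` which are not equivalent to it. -/
theorem equiv_of_generic (c c' : Fin 2 → Fin 2 → ℤ) (m m' : Fin 2 → Fin 2 → Fin r → ℤ)
    (T : ℝ) (hT : 1 ≤ T)
    (hc : ∀ i j, |(c i j : ℝ)| ≤ T) (hm : ∀ i j k, |(m i j k : ℝ)| ≤ T)
    (hc' : ∀ i j, |(c' i j : ℝ)| ≤ T) (hm' : ∀ i j k, |(m' i j k : ℝ)| ≤ T)
    (lam : Fin r → ℝ) (hlam : ∀ k, |lam k| ≤ 1) (ℓ : ℝ) (η : ℝ) (hη1 : η ≤ 1)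
    (hgen : ∀ F : MvPolynomial (Fin r) ℤ, F.totalDegree ≤ 4 → L1 F ≤ 320 * ((r + 1) * T) ^ 8 →
      |aeval lam F| ≤ 500 * ((r + 1) * T) ^ 8 * η →
      ∀ θ : ℝ →ₗ[ℚ] ℝ, aeval (fun k => θ (lam k)) F = 0)
    (M M' : Matrix (Fin 2) (Fin 2) ℝ)
    (hM : ∀ i j, M i j = (c i j : ℝ) * ℓ + ∑ k, (m i j k : ℝ) * lam k)
    (hM' : ∀ i j, M' i j = (c' i j : ℝ) * ℓ + ∑ k, (m' i j k : ℝ) * lam k)
    (hd : |M.det| ≤ η) (hd' : M'.det = 0)
    (hr : RowsIndep M) (hcol : RowsIndep M.transpose) (hr' : RowsIndep M')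
    (hcol' : RowsIndep M'.transpose) :
    ∃ P Q : Matrix (Fin 2) (Fin 2) ℚ, P.det ≠ 0 ∧ Q.det ≠ 0 ∧
      (M = toR P * M' * toR Q ∨ M = toR P * M'.transpose * toR Q) := by
  classical
  have hr0 : (0:ℝ) ≤ r := Nat.cast_nonneg r
  have hη0 : 0 ≤ η := (abs_nonneg _).trans hd
  set U : ℝ := (r + 1) * T with hU
  have hU1 : 1 ≤ U := by rw [hU]; nlinarith
  -- a basis of the span of the `lam k`
  let V : Submodule ℚ ℝ := Submodule.span ℚ (Set.range lam)
  have hfin : FiniteDimensional ℚ V := FiniteDimensional.span_of_finite ℚ (Set.finite_range _)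
  have hmem : ∀ k, lam k ∈ V := fun k => Submodule.subset_span ⟨k, rfl⟩
  let w := Module.finBasis ℚ V
  set s := Module.finrank ℚ V with hs
  let b : Fin s → ℝ := fun j => (w j : ℝ)
  let u : Fin r → MvPolynomial (Fin s) ℚ := fun k =>
    ∑ j, C (w.repr ⟨lam k, hmem k⟩ j) * X j
  have hu_hom : ∀ k, (u k).IsHomogeneous 1 := fun k =>
    IsHomogeneous.sum _ _ _ fun _ _ => isHomogeneous_C_mul_X _ _
  have hu_b : ∀ k, aeval b (u k) = lam k := by
    intro k
    have h1 := congrArg (Subtype.val) (w.sum_repr ⟨lam k, hmem k⟩)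
    refine Eq.trans ?_ h1
    simp only [u, b, map_sum, map_mul, aeval_C, aeval_X, AddSubmonoidClass.coe_finsetSum,
      SetLike.val_smul, Rat.smul_def, eq_ratCast]
  have hb : ∀ x : Fin s → ℚ, ∃ θ : ℝ →ₗ[ℚ] ℝ, ∀ j, θ (b j) = x j := by
    intro x
    obtain ⟨θ, hθ⟩ := LinearMap.exists_extend
      (w.constr ℚ (fun k => ((x k : ℚ) : ℝ)) : V →ₗ[ℚ] ℝ)
    refine ⟨θ, fun j => ?_⟩
    have h1 := congrArg (fun g => g (w j)) hθ
    simp only [LinearMap.comp_apply, Submodule.subtype_apply, Module.Basis.constr_basis] at h1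
    exact h1
  let Φ : MvPolynomial (Fin r) ℤ →ₐ[ℤ] MvPolynomial (Fin s) ℚ := aeval u
  have hΦ : ∀ (y : Fin s → ℝ) (F : MvPolynomial (Fin r) ℤ),
      aeval y (Φ F) = aeval (fun k => aeval y (u k)) F := by
    intro y F
    induction F using MvPolynomial.induction_on with
    | C a => simp [Φ]
    | add p q hp hq => rw [map_add, map_add, hp, hq, map_add]
    | mul_X p k hp => rw [map_mul, map_mul, hp, map_mul, aeval_X, aeval_X]
  have hΦb : ∀ F, aeval b (Φ F) = aeval lam F := by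
    intro F
    rw [hΦ]
    simp only [hu_b]
  have hΦθ : ∀ (θ : ℝ →ₗ[ℚ] ℝ) F, aeval (fun j => θ (b j)) (Φ F) =
      aeval (fun k => θ (lam k)) F := by
    intro θ F
    rw [hΦ]
    congr 2
    funext k
    rw [linear_aeval (hu_hom k), hu_b]
  have hzero : ∀ F : MvPolynomial (Fin r) ℤ, F.totalDegree ≤ 4 → L1 F ≤ 320 * U ^ 8 →
      |aeval lam F| ≤ 500 * U ^ 8 * η → Φ F = 0 := by
    intro F h1 h2 h3
    apply MvPolynomial.funext
    intro x
    obtain ⟨θ, hθ⟩ := hb x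
    have h4 := hgen F h1 h2 h3 θ
    rw [← hΦθ] at h4
    have h5 : aeval (fun j => θ (b j)) (Φ F) = ((eval x (Φ F) : ℚ) : ℝ) := by
      have h6 : (fun j => θ (b j)) = (algebraMap ℚ ℝ) ∘ x := by
        funext j; rw [Function.comp, hθ]; rfl
      rw [h6, MvPolynomial.aeval_algebraMap_apply]
      simp [MvPolynomial.aeval_eq_eval]
    rw [h5] at h4
    rw [map_zero]
    exact_mod_cast h4
  have hΦhom : ∀ (F : MvPolynomial (Fin r) ℤ) (n : ℕ), F.IsHomogeneous n →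
      (Φ F).IsHomogeneous n := by
    intro F n h
    have := h.aeval u hu_hom
    rwa [one_mul] at this
  have hΦC : ∀ a : ℤ, Φ (C a) = C (a : ℚ) := by
    intro a
    simp [Φ]
  have hdetid : ∀ N : Matrix (Fin 2) (Fin 2) ℝ, N.map (LinearMap.id : ℝ →ₗ[ℚ] ℝ) = N := by
    intro N; ext i j; simp
  have e1 := det_formal c m lam ℓ M hM LinearMap.id
  have e1' := det_formal c' m' lam ℓ M' hM' LinearMap.id
  rw [hdetid] at e1
  rw [hdetid, hd'] at e1'
  simp only [LinearMap.id_coe, id_eq] at e1 e1'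
  have hU2 : U ^ 2 ≤ U ^ 8 := pow_le_pow_right₀ hU1 (by norm_num)
  have hU4 : U ^ 4 ≤ U ^ 8 := pow_le_pow_right₀ hU1 (by norm_num)
  have hUnn : 0 ≤ U ^ 8 := by positivity
  have hU8 : 1 ≤ U ^ 8 := one_le_pow₀ hU1
  -- the evaluations and their sizes
  have bA := pA_le (r := r) c T hT hc
  have bA' := pA_le (r := r) c' T hT hc'
  have bβ := (abs_aeval_le _ lam hlam).trans (L1_pB_le c m T hT hc hm)
  have bβ' := (abs_aeval_le _ lam hlam).trans (L1_pB_le c' m' T hT hc' hm')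
  have bγ' := (abs_aeval_le _ lam hlam).trans (L1_pC_le m' T hT hm')
  rw [← hU] at bA bA' bβ bβ' bγ'
  have hAint : (pA c' : ℝ) ≠ 0 → 1 ≤ |(pA c' : ℝ)| := by
    intro h
    have h1 : pA c' ≠ 0 := by exact_mod_cast h
    rw [← Int.cast_abs]
    exact_mod_cast Int.one_le_abs h1
  set A : ℝ := (pA c : ℝ) with hA
  set A' : ℝ := (pA c' : ℝ) with hA'
  set β := aeval lam (pB c m) with hβ
  set β' := aeval lam (pB c' m') with hβ'
  set γ := aeval lam (pC m) with hγ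
  set γ' := aeval lam (pC m') with hγ'
  set f := M.det with hf
  have hf1 : |f| ≤ 1 := hd.trans hη1
  have hS : aeval lam (pS c c' m m') = β * γ' - β' * γ := by
    simp only [pS, map_sub, map_mul, hβ, hβ', hγ, hγ']
  have hR : aeval lam (pR c c' m m') =
      (A * γ' - A' * γ) ^ 2 - (A * β' - A' * β) * (β * γ' - β' * γ) := by
    simp only [pR, map_sub, map_mul, map_pow, aeval_Cint, hβ, hβ', hγ, hγ', hA, hA']
  have hR0 : |aeval lam (pR c c' m m')| ≤ 500 * U ^ 8 * η := by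
    rw [hR]
    exact res_bound U A A' β β' γ γ' ℓ f η hU1 hη0 bA bA' bβ bβ' bγ' hAint hd hf1 e1 e1'
  have hRz := hzero _ ((pR_hom c c' m m').totalDegree_le)
    (L1_pR_le c c' m m' T hT hc hm hc' hm') hR0
  have h1 : (C (pA c : ℚ) * Φ (pC m') - C (pA c' : ℚ) * Φ (pC m)) ^ 2 =
      (C (pA c : ℚ) * Φ (pB c' m') - C (pA c' : ℚ) * Φ (pB c m)) *
        (Φ (pB c m) * Φ (pC m') - Φ (pB c' m') * Φ (pC m)) := by
    simp only [pR, map_sub, map_mul, map_pow, hΦC] at hRz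
    exact sub_eq_zero.mp hRz
  have h2 : (pA c : ℚ) = 0 → (pA c' : ℚ) = 0 →
      Φ (pB c m) * Φ (pC m') = Φ (pB c' m') * Φ (pC m) := by
    intro hA0 hA0'
    have hA0r : A = 0 := by rw [hA]; exact_mod_cast hA0
    have hA0r' : A' = 0 := by rw [hA']; exact_mod_cast hA0'
    rw [hA0r] at e1
    rw [hA0r'] at e1'
    have hS0 : |aeval lam (pS c c' m m')| ≤ 500 * U ^ 8 * η := by
      have h5 : aeval lam (pS c c' m m') = -(β' * f) := by
        rw [hS]
        linear_combination β' * e1 - β * e1'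
      rw [h5, abs_neg, abs_mul]
      have h6 := mul_le_mul bβ' hd (abs_nonneg _) (by positivity)
      have h7 : 4 * U ^ 2 * η ≤ 500 * U ^ 8 * η :=
        mul_le_mul_of_nonneg_right (by linarith) hη0
      linarith
    have hSz := hzero _ ((pS_hom c c' m m').totalDegree_le.trans (by norm_num))
      ((L1_pS_le c c' m m' T hT hc hm hc' hm').trans (by rw [← hU]; linarith)) hS0
    simp only [pS, map_sub, map_mul] at hSz
    exact sub_eq_zero.mp hSz
  have hη500 : η ≤ 500 * U ^ 8 * η := by nlinarith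
  have h3 : (pA c : ℚ) = 0 → Φ (pB c m) = 0 → Φ (pC m) = 0 := by
    intro hA0 hB0
    have hA0r : A = 0 := by rw [hA]; exact_mod_cast hA0
    have hβ0 : β = 0 := by rw [hβ, ← hΦb, hB0, map_zero]
    rw [hA0r, hβ0, zero_mul, zero_mul, zero_add, zero_add] at e1
    have hγ0 : |aeval lam (pC m)| ≤ 500 * U ^ 8 * η := by
      rw [← hγ, ← e1]; exact hd.trans hη500
    exact hzero _ ((pC_hom m).totalDegree_le.trans (by norm_num))
      ((L1_pC_le m T hT hm).trans (by rw [← hU]; linarith)) hγ0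
  have h3' : (pA c' : ℚ) = 0 → Φ (pB c' m') = 0 → Φ (pC m') = 0 := by
    intro hA0 hB0
    have hA0r : A' = 0 := by rw [hA']; exact_mod_cast hA0
    have hβ0 : β' = 0 := by rw [hβ', ← hΦb, hB0, map_zero]
    rw [hA0r, hβ0, zero_mul, zero_mul, zero_add, zero_add] at e1'
    have hγ0 : |aeval lam (pC m')| ≤ 500 * U ^ 8 * η := by
      rw [← hγ', ← e1', abs_zero]; exact hη0.trans hη500
    exact hzero _ ((pC_hom m').totalDegree_le.trans (by norm_num))
      ((L1_pC_le m' T hT hm').trans (by rw [← hU]; linarith)) hγ0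
  have hcore := core (A := (pA c : ℚ)) (A' := (pA c' : ℚ)) (B := Φ (pB c m)) (C := Φ (pC m))
    (B' := Φ (pB c' m')) (C' := Φ (pC m')) (b := b) (ℓ := ℓ) hb
    (hΦhom _ _ (pB_hom c m)) (hΦhom _ _ (pC_hom m)) (hΦhom _ _ (pB_hom c' m'))
    (hΦhom _ _ (pC_hom m'))
    (by rw [hΦb, hΦb, Rat.cast_intCast]; exact e1'.symm) h1 h2 h3 h3'
  rcases hcore with ⟨κ, hκ, k1, k2, k3⟩ | ⟨z1, z2, z3⟩ | hbad
  · have hprop : ∀ θ : ℝ →ₗ[ℚ] ℝ, (M.map θ).det = κ * (M'.map θ).det := by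
      intro θ
      rw [det_formal c m lam ℓ M hM θ, det_formal c' m' lam ℓ M' hM' θ, ← hΦθ, ← hΦθ, ← hΦθ,
        ← hΦθ, k2, k3, map_mul, map_mul, aeval_C, eq_ratCast]
      have k1' : (pA c : ℝ) = (κ : ℝ) * (pA c' : ℝ) := by exact_mod_cast k1
      rw [k1']
      ring
    have hMdet : M.det = 0 := by
      have := hprop LinearMap.id
      rw [hdetid, hdetid, hd', mul_zero] at this
      exact this
    exact equiv_of_formal_det M' M hd' hMdet hr' hcol' hr hcol κ hκ hprop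
  · exfalso
    obtain ⟨θ, hθ⟩ := exists_formal_ne M hr hcol
    apply hθ
    rw [det_formal c m lam ℓ M hM θ, ← hΦθ, ← hΦθ, z2, z3]
    have z1' : (pA c : ℝ) = 0 := by exact_mod_cast z1
    rw [z1']
    simp
  · exfalso
    obtain ⟨θ, hθ⟩ := exists_formal_ne M' hr' hcol'
    apply hθ
    rw [det_formal c' m' lam ℓ M' hM' θ, ← hΦθ, ← hΦθ]
    have := hbad θ
    rwa [Rat.cast_intCast] at this

end Pool.Agent.OneClass
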